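import Pool.Agent.Hhelper12.MG.Defs
import Pool.Agent.Hhelper12.MG.CoverNV
import Pool.Agent.Hhelper12.MG.Holland

/-!
# The lattice of varieties of m-groups has the covering property

The definitions used in the statement (`MGroup`, `MTerm`, `Satisfies`, `MVariety`, its order by
inclusion and `allMGroups`) are in `Pool/Agent/Hhelper12/MG/Defs.lean`; `Y ⋖ X` is the covering
relation of Mathlib: `Y < X` and there is no `Z` with `Y < Z < X`.

The proof has two parts.

* A variety which does not contain all normal-valued m-groups (`CoverNV`): a variety which is
  minimal with respect to violating a suitable law is joined to it.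
* A proper variety containing all normal-valued m-groups is covered by the variety of all m-groups,
  since an m-group which is not normal-valued violates every law that fails in some m-group
  (`Holland`).
-/

set_option autoImplicit false

namespace Pool.Agent.Results.MP_7495cd_al.Covering

open Pool.Agent.Hhelper12.MG

/-- Every variety of m-groups other than the variety of all m-groups has a cover. -/
theorem result (Y : MVariety) (hY : Y ≠ allMGroups) : ∃ X : MVariety, Y ⋖ X := by
  by_cases h : ∀ (G : Type) (inst : MGroup G), NV G → Y.mem G inst
  · refine ⟨allMGroups, ?_, ?_⟩
    · refine lt_of_le_of_ne ?_ hY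
      intro G inst _
      trivial
    · intro Z hYZ hZ
      apply hZ.not_ge
      intro A instA _
      -- a member of `Z` outside `Y` is not normal-valued
      obtain ⟨G, inst, hGZ, hGY⟩ : ∃ (G : Type) (inst : MGroup G), Z.mem G inst ∧
          ¬ Y.mem G inst := by
        by_contra hcon
        push Not at hcon
        exact hYZ.not_ge (fun G inst hG => hcon G inst hG)
      have hG : ¬ NV G := fun hNV => hGY (h G inst hNV)
      obtain ⟨E, hE⟩ := Z.isVariety
      rw [hE]
      intro e he v
      by_contra hne
      obtain ⟨w, hw⟩ := fails_of_not_NV hne G hG
      exact hw ((hE G inst).mp hGZ e he w)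
  · exact cover_of_not_NV Y h

end Pool.Agent.Results.MP_7495cd_al.Covering
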